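import Pool.Agent.H61.CMC.TargetsE1

/-!
# Row E1_GXX of the board cm4_modules: the change of the real part of the Gamma function
-/

set_option autoImplicit false

open MeasureTheory Set Filter NumberField NumberField.InfinitePlace NumberField.Units
  NumberField.Units.dirichletUnitTheorem
open scoped Real

namespace Pool.Agent.H38.CMC1

open Pool.Agent.H65.CM4 Pool.Agent.H65.CMC Pool.Agent.H25.HK Pool.Agent.H61.CM4 Pool.Agent.H61.CMC

/-- quotients of the real Gamma function -/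
theorem gxx_quo : ∃ K : ℝ, 0 < K ∧ ∀ x y : ℝ, 1 / 4 ≤ x → x ≤ y →
    Real.Gamma x ≤ K * Real.Gamma y := by
  have hcont : ContinuousOn Real.Gamma (Icc (1 / 4 : ℝ) 2) :=
    Real.differentiableOn_Gamma_Ioi.continuousOn.mono (fun z hz => by
      have : (1 / 4 : ℝ) ≤ z := hz.1
      show (0 : ℝ) < z
      linarith)
  have hne : (Icc (1 / 4 : ℝ) 2).Nonempty := ⟨1, by norm_num, by norm_num⟩
  obtain ⟨a, ha, hmin⟩ := isCompact_Icc.exists_isMinOn hne hcont
  obtain ⟨b, hb, hmax⟩ := isCompact_Icc.exists_isMaxOn hne hcont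
  have ha0 : 0 < Real.Gamma a := Real.Gamma_pos_of_pos (by linarith [ha.1])
  have hb0 : 0 < Real.Gamma b := Real.Gamma_pos_of_pos (by linarith [hb.1])
  have h2 : Real.Gamma 2 = 1 := Real.Gamma_two
  have hlow : ∀ y : ℝ, 1 / 4 ≤ y → min (Real.Gamma a) 1 ≤ Real.Gamma y := by
    intro y hy
    rcases le_total y 2 with h | h
    · exact (min_le_left _ _).trans (hmin (⟨hy, h⟩ : y ∈ Icc (1 / 4 : ℝ) 2))
    · refine (min_le_right _ _).trans ?_
      rw [← h2]
      exact Real.Gamma_strictMonoOn_Ici.monotoneOn (Set.self_mem_Ici)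
        (show y ∈ Ici (2 : ℝ) from h) h
  have hm0 : 0 < min (Real.Gamma a) 1 := lt_min ha0 one_pos
  refine ⟨max 1 (Real.Gamma b / min (Real.Gamma a) 1), lt_max_of_lt_left one_pos, ?_⟩
  intro x y hx hxy
  have hy0 : 0 < Real.Gamma y := Real.Gamma_pos_of_pos (by linarith)
  rcases le_total x 2 with h | h
  · have h1 : Real.Gamma x ≤ Real.Gamma b := hmax (⟨hx, h⟩ : x ∈ Icc (1 / 4 : ℝ) 2)
    have h3 : Real.Gamma b = Real.Gamma b / min (Real.Gamma a) 1 * min (Real.Gamma a) 1 := by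
      field_simp
    calc Real.Gamma x ≤ Real.Gamma b := h1
      _ = Real.Gamma b / min (Real.Gamma a) 1 * min (Real.Gamma a) 1 := h3
      _ ≤ max 1 (Real.Gamma b / min (Real.Gamma a) 1) * Real.Gamma y :=
          mul_le_mul (le_max_right _ _) (hlow y (hx.trans hxy)) hm0.le
            (le_max_of_le_left zero_le_one)
  · have h1 : Real.Gamma x ≤ Real.Gamma y :=
      Real.Gamma_strictMonoOn_Ici.monotoneOn (show x ∈ Ici (2 : ℝ) from h)
        (show y ∈ Ici (2 : ℝ) from h.trans hxy) hxy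
    calc Real.Gamma x ≤ 1 * Real.Gamma y := by rw [one_mul]; exact h1
      _ ≤ max 1 (Real.Gamma b / min (Real.Gamma a) 1) * Real.Gamma y :=
          mul_le_mul_of_nonneg_right (le_max_left _ _) hy0.le

/-- from the quotient to the norm -/
theorem gxx_norm (hGMO : T_GMO) {K : ℝ}
    (hK : ∀ x y : ℝ, 1 / 4 ≤ x → x ≤ y → Real.Gamma x ≤ K * Real.Gamma y)
    (x y τ : ℝ) (hx : 1 / 4 ≤ x) (hxy : x ≤ y) :
    ‖Complex.Gamma (x + τ * Complex.I)‖ ≤ K * ‖Complex.Gamma (y + τ * Complex.I)‖ := by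
  have hy0 : 0 < Real.Gamma y := Real.Gamma_pos_of_pos (by linarith)
  have h1 := hGMO.2 x y τ (by linarith) hxy
  have h2 : ‖Complex.Gamma (y + τ * Complex.I)‖ * Real.Gamma x ≤
      ‖Complex.Gamma (y + τ * Complex.I)‖ * (K * Real.Gamma y) :=
    mul_le_mul_of_nonneg_left (hK x y hx hxy) (norm_nonneg _)
  have h3 : ‖Complex.Gamma (x + τ * Complex.I)‖ * Real.Gamma y ≤
      (K * ‖Complex.Gamma (y + τ * Complex.I)‖) * Real.Gamma y := by
    calc _ ≤ _ := h1
      _ ≤ _ := h2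
      _ = _ := by ring
  exact le_of_mul_le_mul_right h3 hy0

/-- the norm of a complex number with real part `a ≥ 0` -/
theorem gxx_abs (a τ : ℝ) (ha : 0 ≤ a) : ‖(a : ℂ) + τ * Complex.I‖ ≤ a + |τ| := by
  calc ‖(a : ℂ) + τ * Complex.I‖ ≤ ‖(a : ℂ)‖ + ‖(τ : ℂ) * Complex.I‖ := norm_add_le _ _
    _ = a + |τ| := by
        rw [norm_mul, Complex.norm_I, mul_one, Complex.norm_real, Complex.norm_real,
          Real.norm_eq_abs, Real.norm_eq_abs, abs_of_nonneg ha]

/-- one step of the functional equation -/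
theorem gxx_step (a τ : ℝ) (ha : 0 < a) :
    ‖Complex.Gamma ((a + 1 : ℝ) + τ * Complex.I)‖ ≤
      (a + |τ|) * ‖Complex.Gamma (a + τ * Complex.I)‖ := by
  have hne : (a : ℂ) + τ * Complex.I ≠ 0 := by
    intro h
    have := congrArg Complex.re h
    simp at this
    exact ha.ne' this
  have h1 : ((a + 1 : ℝ) : ℂ) + τ * Complex.I = ((a : ℂ) + τ * Complex.I) + 1 := by
    push_cast
    ring
  rw [h1, Complex.Gamma_add_one _ hne, norm_mul]
  exact mul_le_mul_of_nonneg_right (gxx_abs a τ ha.le) (norm_nonneg _)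

theorem pf_GXX (hGMO : T_GMO) : T_GXX := by
  obtain ⟨K, hK0, hK⟩ := gxx_quo
  intro R
  set N : ℕ := ⌈|R|⌉₊ + 1 with hN
  have hRN : |R| ≤ (N : ℝ) := by
    have := Nat.le_ceil |R|
    rw [hN]
    push_cast
    linarith
  have hN1 : 1 ≤ N := by omega
  have hN1' : (1 : ℝ) ≤ (N : ℝ) := by exact_mod_cast hN1
  refine ⟨K * (1 + (N : ℝ)) ^ N, N, by positivity, ?_⟩
  intro M c τ hc hcR
  have hM0 : (0 : ℝ) ≤ (M : ℝ) := Nat.cast_nonneg M
  have hτ0 : 0 ≤ |τ| := abs_nonneg τ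
  have hcN : c ≤ (N : ℝ) := (hcR.trans (le_abs_self R)).trans hRN
  have hB1 : (1 : ℝ) ≤ 1 + M + |τ| := by linarith
  have hB0 : (0 : ℝ) ≤ 1 + M + |τ| := by linarith
  constructor
  · have h1 := gxx_norm hGMO hK (c + M) (1 / 2 + N + M) τ (by linarith) (by linarith)
    have h2 : ∀ i : ℕ, i ≤ N → ‖Complex.Gamma (((1 / 2 + i + M : ℝ) : ℂ) + τ * Complex.I)‖ ≤
        ((1 + (N : ℝ)) * (1 + M + |τ|)) ^ i *
          ‖Complex.Gamma (((1 / 2 + M : ℝ) : ℂ) + τ * Complex.I)‖ := by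
      intro i
      induction i with
      | zero =>
        intro _
        rw [pow_zero, one_mul]
        simp
      | succ i ih =>
        intro hi
        have hi' : (i : ℝ) + 1 ≤ (N : ℝ) := by exact_mod_cast hi
        have hi0 : (0 : ℝ) ≤ (i : ℝ) := Nat.cast_nonneg i
        have h3 := gxx_step (1 / 2 + i + M) τ (by positivity)
        have h4 : (1 / 2 + ((i + 1 : ℕ) : ℝ) + M : ℝ) = 1 / 2 + i + M + 1 := by
          push_cast
          ring
        rw [h4]
        have h5 : (1 / 2 + (i : ℝ) + M) + |τ| ≤ (1 + (N : ℝ)) * (1 + M + |τ|) := by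
          nlinarith
        calc _ ≤ (1 / 2 + (i : ℝ) + M + |τ|) *
              ‖Complex.Gamma (((1 / 2 + i + M : ℝ) : ℂ) + τ * Complex.I)‖ := h3
          _ ≤ ((1 + (N : ℝ)) * (1 + M + |τ|)) * (((1 + (N : ℝ)) * (1 + M + |τ|)) ^ i *
              ‖Complex.Gamma (((1 / 2 + M : ℝ) : ℂ) + τ * Complex.I)‖) :=
              mul_le_mul h5 (ih (by omega)) (norm_nonneg _) (by positivity)
          _ = _ := by rw [pow_succ]; ring
    have h6 := h2 N le_rfl
    have e1 : ((c + M : ℝ) : ℂ) + τ * Complex.I = (c : ℂ) + M + τ * Complex.I := by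
      push_cast
      ring
    have e2 : ((1 / 2 + M : ℝ) : ℂ) + τ * Complex.I = 1 / 2 + (M : ℂ) + τ * Complex.I := by
      push_cast
      ring
    rw [e1] at h1
    rw [e2] at h6
    calc _ ≤ _ := h1
      _ ≤ K * (((1 + (N : ℝ)) * (1 + M + |τ|)) ^ N *
            ‖Complex.Gamma (1 / 2 + (M : ℂ) + τ * Complex.I)‖) :=
          mul_le_mul_of_nonneg_left h6 hK0.le
      _ = _ := by rw [mul_pow]; ring
  · have h1 := gxx_norm hGMO hK (1 / 2 + M) (c + M + 1) τ (by linarith) (by linarith)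
    have h3 := gxx_step (c + M) τ (by positivity)
    have h5 : (c + (M : ℝ)) + |τ| ≤ (1 + (N : ℝ)) * (1 + M + |τ|) := by
      nlinarith
    have h7 : (1 + (N : ℝ)) * (1 + M + |τ|) ≤ (1 + (N : ℝ)) ^ N * (1 + M + |τ|) ^ N := by
      rw [← mul_pow]
      exact le_self_pow₀ (by nlinarith) (by omega)
    have e1 : ((c + M : ℝ) : ℂ) + τ * Complex.I = (c : ℂ) + M + τ * Complex.I := by
      push_cast
      ring
    have e2 : ((1 / 2 + M : ℝ) : ℂ) + τ * Complex.I = 1 / 2 + (M : ℂ) + τ * Complex.I := by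
      push_cast
      ring
    rw [e1] at h3
    rw [e2] at h1
    calc _ ≤ _ := h1
      _ ≤ K * ((c + M + |τ|) * ‖Complex.Gamma ((c : ℂ) + M + τ * Complex.I)‖) :=
          mul_le_mul_of_nonneg_left h3 hK0.le
      _ ≤ K * (((1 + (N : ℝ)) ^ N * (1 + M + |τ|) ^ N) *
            ‖Complex.Gamma ((c : ℂ) + M + τ * Complex.I)‖) :=
          mul_le_mul_of_nonneg_left
            (mul_le_mul_of_nonneg_right (h5.trans h7) (norm_nonneg _)) hK0.le
      _ = _ := by ring

end Pool.Agent.H38.CMC1
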